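import Pool.Agent.Helper58_UNF.Chr

set_option autoImplicit false

/-!
# Squad UNF: modules WDC (the double coset property in a Coxeter group) and VDL (van der Lek)
-/

namespace Unf.H79

open Art Unf Unf.H58 Pool.Agent.Helper38_Coxeter

variable {S : Type} {M : CoxeterMatrix S}

/-- **WDC** -/
theorem wdc (hdec : DecStmt) (hchr : ChrStmt) : WdcStmt := by
  intro S M D U V x u v hx hu hv hxuv
  obtain ⟨p, hp1, hp2, -, hp4⟩ := hdec M D
  obtain ⟨p', hp1', hp2', -, hp4'⟩ := hdec M (D ∩ V)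
  -- `a = p u`
  set a := p u with ha
  have haD : a ∈ WP M D := hp1 u
  have haU : a ∈ WP M U := hp4 U u hu
  have haDU : a ∈ WP M (D ∩ U) := by
    refine (hchr M (D ∩ U) a).2 fun w s hs => ?_
    by_cases h : s ∈ D
    · exact (hchr M U a).1 haU w s fun h' => hs ⟨h, h'⟩
    · exact (hchr M D a).1 haD w s h
  have hdMin : Min M D (a⁻¹ * u) := hp2 u
  set d := a⁻¹ * u with hd
  have hx' : a⁻¹ * x = d * v := by rw [hxuv, hd, mul_assoc]
  have hx'D : a⁻¹ * x ∈ WP M D := Subgroup.mul_mem _ (Subgroup.inv_mem _ haD) hx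
  -- decompose the inverse of `x' = a⁻¹ x`
  set b' := p' (a⁻¹ * x)⁻¹ with hb'
  have hb'm : b' ∈ WP M (D ∩ V) := hp1' _
  have hmono : ∀ {A B : Set S}, A ⊆ B → WP M A ≤ WP M B := fun h =>
    Subgroup.closure_mono (Set.image_mono h)
  have heMin : Min M (D ∩ V) (b'⁻¹ * (a⁻¹ * x)⁻¹) := hp2' _
  have heq : b'⁻¹ * (a⁻¹ * x)⁻¹ = ((a⁻¹ * x) * b')⁻¹ := by group
  set e := (a⁻¹ * x) * b' with he
  rw [heq] at heMin
  have heD : e ∈ WP M D := Subgroup.mul_mem _ hx'D (hmono Set.inter_subset_left hb'm)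
  have he1 : e = 1 := by
    by_contra h1
    obtain ⟨s, hs⟩ := M.toCoxeterSystem.exists_rightDescent_of_ne_one h1
    have hneg := NN_neg_rho_sr M.toCoxeterSystem hs
    have hsupp := suppIn_of_mem heD (sr s)
    have hsD : s ∈ D := mem_of_neg hsupp hneg
    have hsV : s ∉ V := by
      intro hsV
      have h2 := heMin s ⟨hsD, hsV⟩
      rw [inv_inv] at h2
      exact ((isRoot_sr (cs := M.toCoxeterSystem) s).rho e).not_both h2 hneg
    have h3 : SuppIn D (rho M.toCoxeterSystem e (sr s)) := by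
      have := suppIn_add hsupp (suppIn_sr hsD)
      rwa [sub_add_cancel] at this
    have h4 := nn_map (g := d⁻¹) (fun t ht => hdMin t ht) hneg (suppIn_neg h3)
    rw [map_neg, ← rho_mul_apply] at h4
    have h5 : d⁻¹ * e = v * b' := by
      rw [he, hx']; group
    have h6 : d⁻¹ * e ∈ WP M V := by
      rw [h5]
      exact Subgroup.mul_mem _ hv (hmono Set.inter_subset_right hb'm)
    exact hsV (mem_of_neg (suppIn_of_mem h6 (sr s)) h4)
  refine ⟨a, haDU, b'⁻¹, Subgroup.inv_mem _ hb'm, ?_⟩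
  have h7 : a⁻¹ * x * b' = 1 := he1
  calc x = a * (a⁻¹ * x * b') * b'⁻¹ := by group
    _ = a * b'⁻¹ := by rw [h7, mul_one]

/-- **VDL** -/
theorem vdl (hcoc : CocStmt) (hquo : QuoStmt) : VdlStmt := by
  intro S _ M D Φ hΦ
  obtain ⟨q, hq⟩ := hquo M
  obtain ⟨c, p, hc1, hc2, -, -⟩ := hcoc M D q hq
  have hone : ∀ w, c 1 w = 1 := by
    intro w
    have h := hc1 1 1 w
    rw [map_one, mul_one, mul_one] at h
    exact left_eq_mul.1 h
  have key : ∀ z : Gp (res M D), q (Φ z) ∈ WP M D ∧ ∀ w ∈ WP M D, c (Φ z) w = z := by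
    intro z
    have hz : z ∈ Subgroup.closure (Set.range (gen (res M D))) := by
      rw [closure_gen]; exact Subgroup.mem_top z
    induction hz using Subgroup.closure_induction with
    | mem z hz =>
      obtain ⟨s, rfl⟩ := hz
      rw [hΦ]
      refine ⟨?_, fun w hw => hc2 s w hw⟩
      rw [hq]
      exact Subgroup.subset_closure ⟨s.1, s.2, rfl⟩
    | one =>
      rw [map_one]
      refine ⟨?_, fun w _ => hone w⟩
      rw [map_one]
      exact Subgroup.one_mem _
    | mul z z' _ _ h h' =>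
      rw [map_mul, map_mul]
      refine ⟨Subgroup.mul_mem _ h.1 h'.1, fun w hw => ?_⟩
      rw [hc1, h.2 w hw, h'.2 _ (Subgroup.mul_mem _ hw h.1)]
    | inv z _ h =>
      rw [map_inv, map_inv]
      refine ⟨Subgroup.inv_mem _ h.1, fun w hw => ?_⟩
      have h1 := hc1 (Φ z)⁻¹ (Φ z) w
      rw [inv_mul_cancel, hone, map_inv,
        h.2 _ (Subgroup.mul_mem _ hw (Subgroup.inv_mem _ h.1))] at h1
      exact (eq_inv_of_mul_eq_one_left h1.symm)
  intro z z' hzz
  rw [← (key z).2 1 (Subgroup.one_mem _), hzz, (key z').2 1 (Subgroup.one_mem _)]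

end Unf.H79
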